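import Pool.Agent.helper748_eq.Defs
import Pool.Agent.W574.MO.Node

set_option autoImplicit false
set_option linter.unusedSectionVars false
set_option linter.unusedVariables false

/-! # Identities between the local factors, equivariant version -/

namespace Pool.Agent.Helper748.EQ

open PowerSeries Pool.Agent.W574.MO

variable {M : Type} [CommRing M] (L : Mˣ)

theorem gf_pos {a : ℕ} (ha : 1 ≤ a) (n : ℕ) : gf L a n = qq L a n * geo L a n := by
  rw [gf, if_neg (by omega), qq]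

theorem gf_zero (n : ℕ) : gf L 0 n = 0 := by
  rw [gf, if_pos rfl]

theorem pt_left {κ : ℕ → M} {a0 a1 : ℕ} (n0 n1 : ℕ) (h : 1 ≤ a0) :
    pt L κ a0 n0 a1 n1 = C (κ (a0.gcd a1)) * mf L a1 n1 * gf L a0 n0 := by
  rcases Nat.eq_zero_or_pos a1 with h1 | h1
  · rw [pt, if_pos (Or.inr h1), h1, gf_zero, mf_zero, add_zero, mul_one]
  · rw [pt, if_neg (by omega), mf_pos L h1, gf_pos L h1, map_mul]
    ring

theorem pt_right {κ : ℕ → M} {a0 a1 : ℕ} (n0 n1 : ℕ) (h : 1 ≤ a1) :
    pt L κ a0 n0 a1 n1 = C (κ (a1.gcd a0)) * mf L a0 n0 * gf L a1 n1 := by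
  rcases Nat.eq_zero_or_pos a0 with h1 | h1
  · rw [pt, if_pos (Or.inl h1), h1, gf_zero, mf_zero, zero_add, mul_one, Nat.gcd_comm]
  · rw [pt, if_neg (by omega), mf_pos L h1, gf_pos L h1, map_mul, Nat.gcd_comm]
    ring

variable {L} {K : ℕ → ℕ → Prop}

theorem gf_mem {a n : ℕ} (hn : 1 ≤ n) (hK : 1 ≤ a → K a n) : gf L a n ∈ DenRing L K := by
  rcases Nat.eq_zero_or_pos a with h | h
  · rw [h, gf_zero]
    exact (DenRing L K).zero_mem
  · rw [gf_pos L h]
    exact (DenRing L K).mul_mem (qq_mem _ _) (geo_mem h hn (hK h))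

theorem pt_mem {κ : ℕ → M} {a0 n0 a1 n1 : ℕ} (hn0 : 1 ≤ n0) (hn1 : 1 ≤ n1)
    (hK0 : 1 ≤ a0 → K a0 n0) (hK1 : 1 ≤ a1 → K a1 n1) : pt L κ a0 n0 a1 n1 ∈ DenRing L K := by
  rw [pt]
  split_ifs
  · exact (DenRing L K).mul_mem (C_mem _) ((DenRing L K).add_mem (gf_mem hn0 hK0) (gf_mem hn1 hK1))
  · exact (DenRing L K).mul_mem (C_mem _) ((DenRing L K).mul_mem (gf_mem hn0 hK0) (gf_mem hn1 hK1))

theorem key1' (c x y gx gy gq : M⟦X⟧) (hx : (1 - x) * gx = 1) (hy : (1 - y) * gy = 1)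
    (hq : (1 - x * y) * gq = 1) :
    (c * x * gx + c * y * gy + c) * ((x * y) * gq) = c * (x * y) * gx * gy := by
  have h1 : x * gx + y * gy + 1 = gx * gy * (1 - x * y) := by
    linear_combination (-gy) * hx - (x * gx + 1) * hy
  calc (c * x * gx + c * y * gy + c) * ((x * y) * gq)
      = c * (x * y) * gq * (x * gx + y * gy + 1) := by ring
    _ = c * (x * y) * gq * (gx * gy * (1 - x * y)) := by rw [h1]
    _ = c * (x * y) * gx * gy * ((1 - x * y) * gq) := by ring
    _ = c * (x * y) * gx * gy := by rw [hq, mul_one]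

theorem key2' (l x gy gq : M⟦X⟧) (hy : (1 - l * x) * gy = 1) (hq : (1 - x) * gq = 1) :
    (1 + (l - 1) * (l * x) * gy + (l - 1)) * (x * gq) = l * x * gy := by
  have h1 : l + (l - 1) * (l * x) * gy = l * gy * (1 - x) := by
    linear_combination (-l) * hy
  calc (1 + (l - 1) * (l * x) * gy + (l - 1)) * (x * gq)
      = (l + (l - 1) * (l * x) * gy) * (x * gq) := by ring
    _ = l * gy * (1 - x) * (x * gq) := by rw [h1]
    _ = l * x * gy * ((1 - x) * gq) := by ring
    _ = l * x * gy := by rw [hq, mul_one]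

theorem key3' (c x y gx gy gq : M⟦X⟧) (hx : (1 - x) * gx = 1) (hy : (1 - y) * gy = 1)
    (hq : (1 - x * y) * gq = 1) :
    (c * (x * y) * gq - c * y * gy) * (x * gx) = - ((x * y) * gq) * (c * gy) := by
  have h1 : (x * gq - gy) * gx = - (gq * gy) := by
    linear_combination (-(x * gq * gx)) * hy + (gy * gx) * hq - (gq * gy) * hx
  linear_combination (c * x * y) * h1

/-- the sum of the contributions of the strata of a critical curve has no pole there -/
theorem beta_mem' {a n u1 k1 u2 k2 : ℕ} (hu : u1 + u2 = a) (hk : k1 + k2 = n) (ha : 1 ≤ a)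
    (hk1 : 1 ≤ k1) (hk2 : 1 ≤ k2) (hz1 : u1 = 0 → k1 = 1) (hz2 : u2 = 0 → k2 = 1)
    (hK1 : 1 ≤ u1 → K u1 k1) (hK2 : 1 ≤ u2 → K u2 k2) :
    (mf L u1 k1 + mf L u2 k2 + C ((L : M) - 1)) * gf L a n ∈ DenRing L K := by
  subst hu hk
  rcases Nat.eq_zero_or_pos u1 with h1 | h1
  · have h2 : 1 ≤ u2 := by omega
    have hk := hz1 h1
    subst h1 hk
    have hq : qq L u2 k2 = C (L : M) * qq L (0 + u2) (1 + k2) := by
      rw [qq, qq, zero_add, ← mul_assoc, ← map_mul, ← Units.val_mul, pow_add, pow_one,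
        mul_inv_cancel_left]
    have hy := geo_mul L h2 k2
    rw [hq] at hy
    have hx := geo_mul L (show 1 ≤ 0 + u2 by omega) (1 + k2)
    have := key2' (C (L : M)) _ _ _ hy hx
    rw [mf_zero, mf_pos L h2, gf_pos L (show 1 ≤ 0 + u2 by omega), hq, map_sub, map_one, this]
    exact (DenRing L K).mul_mem ((DenRing L K).mul_mem (C_mem _) (qq_mem _ _))
      (geo_mem h2 hk2 (hK2 h2))
  · rcases Nat.eq_zero_or_pos u2 with h2 | h2
    · have hk := hz2 h2
      subst h2 hk
      have hq : qq L u1 k1 = C (L : M) * qq L (u1 + 0) (k1 + 1) := by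
        rw [qq, qq, add_zero, ← mul_assoc, ← map_mul, ← Units.val_mul, pow_succ',
          mul_inv_cancel_left]
      have hy := geo_mul L h1 k1
      rw [hq] at hy
      have hx := geo_mul L (show 1 ≤ u1 + 0 by omega) (k1 + 1)
      have := key2' (C (L : M)) _ _ _ hy hx
      rw [mf_zero, mf_pos L h1, gf_pos L (show 1 ≤ u1 + 0 by omega), hq, map_sub, map_one,
        add_comm (_ * _) 1, this]
      exact (DenRing L K).mul_mem ((DenRing L K).mul_mem (C_mem _) (qq_mem _ _))
        (geo_mem h1 hk1 (hK1 h1))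
    · have hx := geo_mul L h1 k1
      have hy := geo_mul L h2 k2
      have hq := geo_mul L (show 1 ≤ u1 + u2 by omega) (k1 + k2)
      rw [← qq_mul] at hq
      have := key1' (C ((L : M) - 1)) _ _ _ _ _ hx hy hq
      rw [mf_pos L h1, mf_pos L h2, gf_pos L (show 1 ≤ u1 + u2 by omega), ← qq_mul, this]
      exact (DenRing L K).mul_mem ((DenRing L K).mul_mem ((DenRing L K).mul_mem
        (C_mem _)
        ((DenRing L K).mul_mem (qq_mem _ _) (qq_mem _ _))) (geo_mem h1 hk1 (hK1 h1)))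
        (geo_mem h2 hk2 (hK2 h2))

/-- changing the second curve by a multiple of the first one -/
theorem pass_mem' {a n u k : ℕ} (ha : 1 ≤ a) (hu : 1 ≤ u) (hn : 1 ≤ n) (hk : 1 ≤ k)
    (hK1 : K u k) (hK2 : K (a + u) (n + k)) :
    (mf L (a + u) (n + k) - mf L u k) * gf L a n ∈ DenRing L K := by
  have hx := geo_mul L ha n
  have hy := geo_mul L hu k
  have hq := geo_mul L (show 1 ≤ a + u by omega) (n + k)
  have h4 : (qq L (a + u) (n + k) : M⟦X⟧) = qq L a n * qq L u k := (qq_mul L a n u k).symm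
  have hm := gf_mem (L := L) (K := K) (a := a + u) (n := n + k) (by omega) (fun _ => hK2)
  rw [gf_pos L (show 1 ≤ a + u by omega)] at hm
  rw [mf_pos L (show 1 ≤ a + u by omega), h4]
  rw [h4] at hq hm
  have := key3' (C ((L : M) - 1)) _ _ _ _ _ hx hy hq
  rw [gf_pos L ha, mf_pos L hu, this]
  exact (DenRing L K).mul_mem ((DenRing L K).neg_mem hm)
    ((DenRing L K).mul_mem (C_mem _) (geo_mem hu hk hK1))

/-- the gcd of the intersection numbers of a critical curve -/
theorem gcd_eq {S : Finset ℂ} (h0S : 0 ∈ S) {q : ℂ → ℕ} {q' N u1 u2 : ℕ} (hN : u1 + u2 = N)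
    (h : ∀ Φ : ℕ → ℤ, Φ 0 = 1 → Φ q' + Φ (q 0) + ∑ c ∈ S.erase 0, Φ (q c) - S.card =
      Φ u1 + Φ u2 - 1) :
    {c ∈ S | q c ≠ 0}.card + (if q' = 0 then 0 else 1) ≤ 2 ∧
      N.gcd (q'.gcd (S.gcd q)) = N.gcd u1 ∧ N.gcd u1 = N.gcd u2 := by
  classical
  have hS : ∀ Φ : ℕ → ℤ, Φ (q 0) + ∑ c ∈ S.erase 0, Φ (q c) = ∑ c ∈ S, Φ (q c) := fun Φ =>
    Finset.add_sum_erase S (fun c => Φ (q c)) h0S
  refine ⟨?_, ?_, ?_⟩
  · have h1 := h (fun a => if a = 0 then 1 else 0) (if_pos rfl)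
    have h2 : ∑ c ∈ S, (if q c = 0 then (1 : ℤ) else 0) + {c ∈ S | q c ≠ 0}.card = S.card := by
      rw [← Finset.sum_filter, Finset.sum_const, nsmul_eq_mul, mul_one]
      have := Finset.card_filter_add_card_filter_not (s := S) (fun c => q c = 0)
      exact_mod_cast this
    have h3 := hS (fun a => if a = 0 then 1 else 0)
    beta_reduce at h1 h3
    have h4 : (0 : ℤ) ≤ (if u1 = 0 then (1 : ℤ) else 0) := by split_ifs <;> norm_num
    have h5 : (0 : ℤ) ≤ (if u2 = 0 then (1 : ℤ) else 0) := by split_ifs <;> norm_num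
    have h6 : ((if q' = 0 then 0 else 1 : ℕ) : ℤ) = 1 - (if q' = 0 then (1 : ℤ) else 0) := by
      split_ifs <;> norm_num
    have h7 : (({c ∈ S | q c ≠ 0}.card + (if q' = 0 then 0 else 1) : ℕ) : ℤ) ≤ 2 := by
      rw [Nat.cast_add, h6]
      linarith
    exact_mod_cast h7
  · -- the greatest common divisor
    have key : ∀ e : ℕ, (e ∣ q' ∧ ∀ c ∈ S, e ∣ q c) ↔ (e ∣ u1 ∧ e ∣ u2) := by
      intro e
      have h1 := h (fun a => if e ∣ a then 1 else 0) (if_pos (dvd_zero e))
      have h3 := hS (fun a => if e ∣ a then 1 else 0)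
      beta_reduce at h1 h3
      rw [add_assoc, h3] at h1
      have hle : ∀ a : ℕ, (if e ∣ a then (1 : ℤ) else 0) ≤ 1 := fun a => by split_ifs <;> norm_num
      have hsle : ∑ c ∈ S, (if e ∣ q c then (1 : ℤ) else 0) ≤ S.card := by
        have := Finset.sum_le_sum fun c (_ : c ∈ S) => hle (q c)
        simpa using this
      constructor
      · rintro ⟨hq', hq⟩
        rw [if_pos hq', Finset.sum_congr rfl fun c hc => if_pos (hq c hc)] at h1
        simp only [Finset.sum_const, nsmul_eq_mul, mul_one] at h1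
        have h4 := hle u1
        have h5 := hle u2
        constructor
        · by_contra hcon
          rw [if_neg hcon] at h1
          linarith
        · by_contra hcon
          rw [if_neg hcon] at h1
          linarith
      · rintro ⟨h4, h5⟩
        rw [if_pos h4, if_pos h5] at h1
        have h6 := hle q'
        have h7 : ∑ c ∈ S, (if e ∣ q c then (1 : ℤ) else 0) = S.card := by linarith
        constructor
        · by_contra hcon
          rw [if_neg hcon] at h1
          linarith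
        · intro c hc
          by_contra hcon
          have h8 : ∑ c ∈ S, (if e ∣ q c then (1 : ℤ) else 0) < ∑ c ∈ S, (1 : ℤ) :=
            Finset.sum_lt_sum (fun c _ => hle (q c)) ⟨c, hc, by rw [if_neg hcon]; norm_num⟩
          rw [h7] at h8
          simp at h8
    apply Nat.dvd_antisymm
    · refine Nat.dvd_gcd (Nat.gcd_dvd_left _ _) ?_
      refine ((key _).1 ⟨?_, fun c hc => ?_⟩).1
      · exact (Nat.gcd_dvd_right _ _).trans (Nat.gcd_dvd_left _ _)
      · exact ((Nat.gcd_dvd_right _ _).trans (Nat.gcd_dvd_right _ _)).trans (Finset.gcd_dvd hc)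
    · have h4 : N.gcd u1 ∣ u2 := by
        have h5 := Nat.gcd_dvd_left N u1
        have h6 := Nat.gcd_dvd_right N u1
        rw [← hN] at h5 ⊢
        rw [← hN] at h6
        exact (Nat.dvd_add_right h6).1 h5
      obtain ⟨h7, h8⟩ := (key (N.gcd u1)).2 ⟨Nat.gcd_dvd_right _ _, h4⟩
      exact Nat.dvd_gcd (Nat.gcd_dvd_left _ _) (Nat.dvd_gcd h7 (Finset.dvd_gcd h8))
  · apply Nat.dvd_antisymm
    · refine Nat.dvd_gcd (Nat.gcd_dvd_left _ _) ?_
      have h5 := Nat.gcd_dvd_left N u1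
      have h6 := Nat.gcd_dvd_right N u1
      have h7 : N.gcd u1 ∣ u1 + u2 := by rw [hN]; exact h5
      exact (Nat.dvd_add_right h6).1 h7
    · refine Nat.dvd_gcd (Nat.gcd_dvd_left _ _) ?_
      have h5 := Nat.gcd_dvd_left N u2
      have h6 := Nat.gcd_dvd_right N u2
      have h7 : N.gcd u2 ∣ u1 + u2 := by rw [hN]; exact h5
      exact (Nat.dvd_add_left h6).1 h7

end Pool.Agent.Helper748.EQ
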