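import Pool.Agent.W574.MO.Defs
import Pool.Agent.W574.CN.Defs

set_option autoImplicit false

/-! # The equivariant motivic zeta function of a form in three variables

`M` is a commutative ring with a unit `L`. The main example is the ring `M = 𝓜^μ_{X_s}`, the
localized Grothendieck ring of the varieties over `X_s` with an action of `μ`, and the class `L` of
the affine line over `X_s`. The formula of Denef and Loeser for the equivariant motivic zeta function
of `f` in terms of an embedded resolution `h` is
`∑_{I ≠ ∅} (L - 1) ^ (|I| - 1) [Ẽ_I°] ∏_{i ∈ I} L ^ (-ν_i) T ^ (N_i) / (1 - L ^ (-ν_i) T ^ (N_i))`,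
where `Ẽ_I° → E_I°` is the unramified covering with the group `μ_e`, `e = gcd(N_i, i ∈ I)`, which is
locally given by `z ^ e = w⁻¹`, if `f ∘ h = w u ^ e` with a unit `w`. -/

namespace Pool.Agent.Helper748.EQ

open MvPolynomial Pool.Agent.W574.SM Pool.Agent.W574.MO Pool.Agent.W574.CN

variable {M : Type} [CommRing M]

/-- The series `L⁻ⁿ Tᵃ / (1 - L⁻ⁿ Tᵃ)` of a divisor with the numerical data `(N, ν) = (a, n)`,
`a ≥ 1`, and `0` if there is no divisor, `(a, n) = (0, 1)`. -/
noncomputable def gf (L : Mˣ) (a n : ℕ) : PowerSeries M :=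
  if a = 0 then 0 else
    PowerSeries.C ((L⁻¹ ^ n : Mˣ) : M) * PowerSeries.X ^ a * geo L a n

/-- The contribution of a point through which pass exactly the divisors with the numerical data
`(a₀, n₀)` and `(a₁, n₁)` (those with `a_i ≥ 1`): the class of the covering of this point is
`κ (gcd (a₀, a₁))`, with `gcd (a, 0) = a`. -/
noncomputable def pt (L : Mˣ) (κ : ℕ → M) (a₀ n₀ a₁ n₁ : ℕ) : PowerSeries M :=
  if a₀ = 0 ∨ a₁ = 0 then PowerSeries.C (κ (a₀.gcd a₁)) * (gf L a₀ n₀ + gf L a₁ n₁)
  else PowerSeries.C (κ (a₀.gcd a₁) * ((L : M) - 1)) * (gf L a₀ n₀ * gf L a₁ n₁)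

/-- the order at `v = 0` of the restriction of `g` to `u = 0` -/
noncomputable def ord0 (g : MvPolynomial (Fin 2) ℂ) : ℕ :=
  (aeval (![0, Polynomial.X] : Fin 2 → Polynomial ℂ) g).natTrailingDegree

/-- the order at `u = 0` of the restriction of `g` to `v = 0` -/
noncomputable def ord1 (g : MvPolynomial (Fin 2) ℂ) : ℕ :=
  (aeval (![Polynomial.X, 0] : Fin 2 → Polynomial ℂ) g).natTrailingDegree

/-- The class `w` of the covering `Ẽ° → E°` for an exceptional curve `E`, a projective line, with
`N = N_E`, where `E°` is the complement in `E` of the points of `S` and of one more point, and `q c`,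
`c ∈ S`, and `q'` are the intersection numbers at these points of `E` with the other components of
the divisor of `f ∘ h`, so that the covering is `z ^ N = ∏ (x - c) ^ (- q c)`. If at most two of
these numbers are not zero, then the normalized covering of `E` is the product of `E` with `μ_e`,
where `e` is the greatest common divisor of `N` and all these numbers, with `gcd (N, q c)` points
over `c`; hence `w = (L + 1) κ(e) - κ(gcd (N, q')) - ∑ c, κ(gcd (N, q c))`. In the other cases `w` is an
arbitrary element. -/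
def IsCov (L : Mˣ) (κ : ℕ → M) (N : ℕ) (S : Finset ℂ) (q : ℂ → ℕ) (q' : ℕ) (w : M) : Prop :=
  {c ∈ S | q c ≠ 0}.card + (if q' = 0 then 0 else 1) ≤ 2 →
    w = ((L : M) + 1) * κ (N.gcd (q'.gcd (S.gcd q))) - κ (N.gcd q') - ∑ c ∈ S, κ (N.gcd (q c))

/-- `EqLocal L κ g a₀ n₀ a₁ n₁ Z`: the origin of the plane, with the coordinates `u = X 0` and
`v = X 1`, is a point of a partial resolution, near which the function is `u ^ a₀ v ^ a₁ g` and
the canonical divisor is `(n₀ - 1) [u = 0] + (n₁ - 1) [v = 0]`. (So `(a_i, n_i)` are the numbers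
`(N_E, ν_E)` of the exceptional curve `u = 0` resp. `v = 0`, and `(a_i, n_i) = (0, 1)` if there is
no exceptional curve.) `Z` is the contribution of the origin to the equivariant motivic zeta
function, the sum of the terms of the formula of Denef and Loeser for the parts over the origin of
the strata of a resolution `h` obtained by blowing up points. For `e ≥ 1`, `κ e` is the class of the
trivial covering of the origin with the group `μ_e` (in the case of surfaces, see `EqCone`, of a
certain covering with the group `μ_e` of a variety which depends only on the origin). The rules are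

* `unit`: `g` does not vanish at the origin;
* `curveV`, `curveU`: near the origin, `g` is a unit times `h ^ m`, where the curve `h = 0` is
  smooth at the origin and transversal to the exceptional curve `u = 0` (resp. `v = 0`), the only
  one through the origin (if any);
* `blowup`: the origin is blown up. The number `m` is the multiplicity of `g`, the
  new exceptional curve `E` has `N_E = a₀ + a₁ + m` and `ν_E = n₀ + n₁`, and `gc c` and `gI`
  are the transforms of `g` at the points of `E` (the directions `v = c u` and `u = 0`).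
  At the points `c ∉ S` the transform of `g` is a unit and there is no other exceptional
  curve; `w` is the class of the covering of the set of these points, see `IsCov`. -/
inductive EqLocal (L : Mˣ) (κ : ℕ → M) :
    MvPolynomial (Fin 2) ℂ → ℕ → ℕ → ℕ → ℕ → PowerSeries M → Prop
  | unit (g : MvPolynomial (Fin 2) ℂ) (a₀ n₀ a₁ n₁ : ℕ)
      (hg : constantCoeff g ≠ 0) :
      EqLocal L κ g a₀ n₀ a₁ n₁ (pt L κ a₀ n₀ a₁ n₁)
  | curveV (g : MvPolynomial (Fin 2) ℂ) (a₀ n₀ m : ℕ) (hm : 1 ≤ m)
      (h k : MvPolynomial (Fin 2) ℂ) (hg : g = h ^ m * k) (h0 : constantCoeff h = 0)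
      (h1 : constantCoeff (pderiv 1 h) ≠ 0) (hk : constantCoeff k ≠ 0) :
      EqLocal L κ g a₀ n₀ 0 1 (pt L κ a₀ n₀ m 1)
  | curveU (g : MvPolynomial (Fin 2) ℂ) (a₁ n₁ m : ℕ) (hm : 1 ≤ m)
      (h k : MvPolynomial (Fin 2) ℂ) (hg : g = h ^ m * k) (h0 : constantCoeff h = 0)
      (h1 : constantCoeff (pderiv 0 h) ≠ 0) (hk : constantCoeff k ≠ 0) :
      EqLocal L κ g 0 1 a₁ n₁ (pt L κ a₁ n₁ m 1)
  | blowup (g : MvPolynomial (Fin 2) ℂ) (a₀ n₀ a₁ n₁ m : ℕ) (hm : 1 ≤ m)
      (gc : ℂ → MvPolynomial (Fin 2) ℂ) (gI : MvPolynomial (Fin 2) ℂ)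
      (hgc : ∀ c, aeval (chart c) g = X 0 ^ m * gc c)
      (hgI : aeval chartI g = X 1 ^ m * gI)
      (S : Finset ℂ) (h0S : 0 ∈ S) (hS : ∀ c ∉ S, constantCoeff (gc c) ≠ 0) (w : M)
      (hw : IsCov L κ (a₀ + a₁ + m) S (fun c => (if c = 0 then a₁ else 0) + ord0 (gc c))
        (a₀ + ord1 gI) w)
      (Zc : ℂ → PowerSeries M) (ZI : PowerSeries M)
      (h0 : EqLocal L κ (gc 0) (a₀ + a₁ + m) (n₀ + n₁) a₁ n₁ (Zc 0))
      (hc : ∀ c ∈ S, c ≠ 0 → EqLocal L κ (gc c) (a₀ + a₁ + m) (n₀ + n₁) 0 1 (Zc c))
      (hI : EqLocal L κ gI a₀ n₀ (a₀ + a₁ + m) (n₀ + n₁) ZI) :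
      EqLocal L κ g a₀ n₀ a₁ n₁
        (ZI + ∑ c ∈ S, Zc c + PowerSeries.C w * gf L (a₀ + a₁ + m) (n₀ + n₁))

/-- `Z` is a sum of the form `∑_i w_i L⁻¹ T^(m_i) / (1 - L⁻¹ T^(m_i)) + ∑_{P ∈ S} Z_P`, where `w_i` are
elements of `M`, the `m_i` are the multiplicities of curves in the zero locus of `f`, and
`Z_P` is the contribution of the point `P`, computed by a sequence of blow-ups of points.

The equivariant motivic zeta function of the polynomial `f` in two variables is such a sum: take for
the curves `C_i` all the irreducible curves in the zero locus, for `S` a finite set of points which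
contains the singular points of the union of the curves, for `w_i` the class of the covering
`z ^ (m_i) = w⁻¹` of `C_i ∖ S`, where `f = w h ^ (m_i)`, and `κ_P e = [μ_e → P]`. -/
def EqPlane (L : Mˣ) (f : MvPolynomial (Fin 2) ℂ) (Z : PowerSeries M) : Prop :=
  ∃ (r : ℕ) (h : Fin r → MvPolynomial (Fin 2) ℂ) (m : Fin r → ℕ) (w : Fin r → M)
    (S : Finset (Fin 2 → ℂ)) (κ : (Fin 2 → ℂ) → ℕ → M) (ZP : (Fin 2 → ℂ) → PowerSeries M),
    (∀ i, IsCurve (fun _ : Unit => f) (h i) (m i)) ∧
    (∀ P ∈ S, EqLocal L (κ P) (translate P f) 0 1 0 1 (ZP P)) ∧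
    Z = ∑ i, PowerSeries.C (w i) * gf L (m i) 1 + ∑ P ∈ S, ZP P

/-- `Z` is (of the form of) the equivariant motivic zeta function of the form `f(x₀, x₁, x₂)` of
degree `d`, over `X_s = {f = 0}` and with the action of `μ`:
`Z = w L⁻³ T ^ d / (1 - L⁻³ T ^ d) + ∑_i (Z_i + Z_i' L⁻³ T ^ d / (1 - L⁻³ T ^ d))`, where `Z_i` and `Z_i'`
are sums of contributions of the polynomial `f |_{x_i = 1}` in two variables, see `EqPlane`.

Explanation, compare `ConeZeta`: the blow-up `X'` of the origin of `ℂ ^ 3` is the total space of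
the line bundle `O(-1)` over the projective plane, the exceptional divisor `E` has the numerical
data `(d, 3)`, and an embedded resolution `Y → P ^ 2` of the curve `f = 0` by blow-ups of points
gives the embedded resolution `X' ×_{P ^ 2} Y` of the surface `f = 0`. Every stratum `D` of `Y`
gives two strata.

* The stratum in the transform of `E`, isomorphic to `D`, with the divisors `I ∪ {E}`: these are the
  terms `w` (for `I = ∅`) and `Z_i'`. The terms for the part of `D` over a point `P` of the plane are
  given by the rules of `EqLocal` with `κ_P e = (L - 1) [μ_{gcd (e, d)} → 0]`: the group of the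
  covering is `μ_{gcd (N, d)}`, `N` the greatest common divisor of the `N_i`, `i ∈ I`, and the classes
  of these coverings have the factor `(L - 1) ^ |I|`.
* The `ℂ ^ *`-bundle over `D` in the complement of the transform of `E`, with the divisors `I ≠ ∅`:
  these are the terms `Z_i`. The terms for the part of `D` over a point `P` of the plane are
  given by the rules of `EqLocal` with `κ_P e = [{(t, z) ∈ ℂ ^ * × ℂ ^ * : z ^ e t ^ d = 1}]`, over the
  punctured line `P ∖ 0 ≅ ℂ ^ *`, by the coordinate `t`, and with the action of `μ_e` on `z`. (If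
  `y = z ^ (N / e) x ^ (q / e)`, `e = gcd (N, q)`, then `{z ^ N x ^ q t ^ d = 1}` is the product of
  `{y ^ e t ^ d = 1}` with a `ℂ ^ *` on which the group acts linearly.) -/
def EqCone (L : Mˣ) (f : MvPolynomial (Fin 3) ℂ) (d : ℕ) (Z : PowerSeries M) : Prop :=
  ∃ (w : M) (Z' Z'' : Fin 3 → PowerSeries M), (∀ i, EqPlane L (deh i f) (Z' i)) ∧
    (∀ i, EqPlane L (deh i f) (Z'' i)) ∧
    Z = PowerSeries.C w * gf L d 3 + ∑ i, (Z' i + Z'' i * gf L d 3)

end Pool.Agent.Helper748.EQ
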