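import Pool.Agent.helper748_eq.Point
import Pool.Agent.helper748_mc.FanThm
import Pool.Agent.helper748_mc.Mot2

set_option autoImplicit false
set_option linter.unusedSectionVars false
set_option linter.unusedVariables false

/-! # The denominators of the equivariant motivic zeta function of a ternary form -/

namespace Pool.Agent.Helper748.EQ

open MvPolynomial Pool.Agent.W574.SM Pool.Agent.W574.CN Pool.Agent.W574.MO Pool.Agent.W574.LM
  Pool.Agent.W574.HS Pool.Agent.Helper748.MC

variable {M : Type} [CommRing M] (L : Mˣ)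

/-- **The denominators of the equivariant motivic zeta function of a polynomial in two
variables.** -/
theorem plane_eq (f : MP) (b : Polynomial ℂ) (hb : IsFunctionalEq (fun _ : Unit => f) b)
    (Z : PowerSeries M) (hZ : EqPlane L f Z) : Z ∈ DenRing L (RootPair b) := by
  obtain ⟨r, h, m, w, S, κ, ZP, hC, hP, rfl⟩ := hZ
  refine Subring.add_mem _ ?_ ?_
  · refine Subring.sum_mem _ fun i _ => Subring.mul_mem _ (C_mem _) (gf_mem le_rfl fun _ => ?_)
    have := curve_root (fun _ : Unit => f) b hb (h i) (m i) (hC i)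
    rw [RootPair, Nat.cast_one]
    exact this
  · refine Subring.sum_mem _ fun P hPS => ?_
    exact point_eq L (κ P) f b 1 (locEq_one (fun _ : Unit => f) b hb) P
      (by rw [map_one]; exact one_ne_zero) _ (hP P hPS)

/-- The denominators of the equivariant motivic zeta function of a form belong to roots of `b`, if
`-3/d` is a root of `b`. -/
theorem cone_eq (f : MvPolynomial (Fin 3) ℂ) (d : ℕ) (hf : f.IsHomogeneous d) (b : Polynomial ℂ)
    (hb : IsFunctionalEq (fun _ : Unit => f) b) (hr : b.eval (-3 / d : ℂ) = 0)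
    (Z : PowerSeries M) (hZ : EqCone L f d Z) : Z ∈ DenRing L (RootPair b) := by
  obtain ⟨w, Z', Z'', h1, h2, rfl⟩ := hZ
  have hd3 : gf L d 3 ∈ DenRing L (RootPair b) :=
    gf_mem (by norm_num) fun _ => root_pair_d3 hr
  have hp : ∀ i Z, EqPlane L (deh i f) Z → Z ∈ DenRing L (RootPair b) := fun i Z hZ =>
    plane_eq L _ b (functionalEq_deh i (fun _ : Unit => f) d (fun _ => hf) b hb) Z hZ
  refine Subring.add_mem _ (Subring.mul_mem _ (C_mem _) hd3) (Subring.sum_mem _ fun i _ =>
    Subring.add_mem _ (hp i _ (h1 i)) (Subring.mul_mem _ (hp i _ (h2 i)) hd3))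

end Pool.Agent.Helper748.EQ
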