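import Pool.Agent.helper748_eq.Node
import Pool.Agent.helper748_eq.Eq1

set_option autoImplicit false
set_option linter.unusedSectionVars false
set_option linter.unusedVariables false

/-! # The equivariant contribution of a point: simultaneous removal of all denominators

This follows `Pool.Agent.W574.MO.Point`. -/

namespace Pool.Agent.Helper748.EQ

open Pool.Agent.W574.SM Pool.Agent.W574.LM Pool.Agent.W574.MO

section Map

variable {A M : Type} [CommRing A] [CommRing M] (φ : A →+* M) (l : Aˣ) (L : Mˣ)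

theorem map_inv_pow (h : φ (l : A) = L) (n : ℕ) :
    φ ((l⁻¹ ^ n : Aˣ) : A) = ((L⁻¹ ^ n : Mˣ) : M) := by
  have h1 : φ ((l⁻¹ : Aˣ) : A) = ((L⁻¹ : Mˣ) : M) := by
    have h2 : φ (l : A) * φ ((l⁻¹ : Aˣ) : A) = 1 := by
      rw [← map_mul, ← Units.val_mul, mul_inv_cancel, Units.val_one, map_one]
    rw [h] at h2
    rw [← Units.inv_mul_cancel_left L (φ ((l⁻¹ : Aˣ) : A)), h2, mul_one]
  rw [Units.val_pow_eq_pow_val, map_pow, h1, Units.val_pow_eq_pow_val]

theorem map_qq (h : φ (l : A) = L) (a n : ℕ) : PowerSeries.map φ (qq l a n) = qq L a n := by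
  rw [qq, qq, map_mul, map_pow, PowerSeries.map_C, map_inv_pow φ l L h, PowerSeries.map_X]

theorem map_geo (h : φ (l : A) = L) {a : ℕ} (ha : 1 ≤ a) (n : ℕ) :
    PowerSeries.map φ (geo l a n) = geo L a n := by
  have h1 := congrArg (PowerSeries.map φ) (geo_mul l ha n)
  rw [map_mul, map_sub, map_one, map_qq φ l L h] at h1
  have h2 := geo_mul L ha n
  calc PowerSeries.map φ (geo l a n)
      = (1 - qq L a n) * geo L a n * PowerSeries.map φ (geo l a n) := by rw [h2, one_mul]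
    _ = geo L a n * ((1 - qq L a n) * PowerSeries.map φ (geo l a n)) := by ring
    _ = geo L a n := by rw [h1, mul_one]

theorem map_gf (h : φ (l : A) = L) (a n : ℕ) : PowerSeries.map φ (gf l a n) = gf L a n := by
  rcases Nat.eq_zero_or_pos a with h0 | h0
  · rw [h0, gf_zero, gf_zero, map_zero]
  · rw [gf_pos l h0, gf_pos L h0, map_mul, map_qq φ l L h, map_geo φ l L h h0]

theorem map_pt (h : φ (l : A) = L) {κ : ℕ → A} {κ' : ℕ → M} (hκ : ∀ e, φ (κ e) = κ' e)
    (a0 n0 a1 n1 : ℕ) : PowerSeries.map φ (pt l κ a0 n0 a1 n1) = pt L κ' a0 n0 a1 n1 := by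
  rw [pt, pt]
  split_ifs
  · rw [map_mul, map_add, PowerSeries.map_C, hκ, map_gf φ l L h, map_gf φ l L h]
  · rw [map_mul (PowerSeries.map φ), map_mul (PowerSeries.map φ), PowerSeries.map_C, map_mul φ,
      map_sub, map_one, hκ, h, map_gf φ l L h, map_gf φ l L h]

theorem map_mem (h : φ (l : A) = L) {K : ℕ → ℕ → Prop} {x : PowerSeries A}
    (hx : x ∈ DenRing l K) : PowerSeries.map φ x ∈ DenRing L K := by
  induction hx using Subring.closure_induction with
  | mem x hx =>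
    rcases hx with ⟨P, rfl⟩ | ⟨a, n, ha, hn, hK, h'⟩
    · refine Subring.subset_closure (Or.inl ⟨P.map φ, ?_⟩)
      exact Polynomial.polynomial_map_coe
    · refine Subring.subset_closure (Or.inr ⟨a, n, ha, hn, hK, ?_⟩)
      have h1 := congrArg (PowerSeries.map φ) h'
      have h2 := map_qq φ l L h a n
      rw [qq, qq] at h2
      rw [map_mul, map_sub, map_one, h2] at h1
      exact h1
  | zero => rw [map_zero]; exact (DenRing L K).zero_mem
  | one => rw [map_one]; exact (DenRing L K).one_mem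
  | add x y _ _ hx hy => rw [map_add]; exact (DenRing L K).add_mem hx hy
  | neg x _ hx => rw [map_neg]; exact (DenRing L K).neg_mem hx
  | mul x y _ _ hx hy => rw [map_mul]; exact (DenRing L K).mul_mem hx hy

end Map

section Univ

variable {M : Type} [CommRing M] (L : Mˣ) (κ : ℕ → M)

/-- the ring `ℤ[L, L⁻¹]` with a variable for every `e ∈ ℕ` and every element of `M` -/
abbrev UU (M : Type) : Type := MvPolynomial (ℕ ⊕ M) AA

/-- the unit `L` -/
noncomputable def LU (M : Type) : (UU M)ˣ := Units.map (MvPolynomial.C (σ := ℕ ⊕ M)).toMonoidHom LL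

/-- the elements `κ e` -/
noncomputable def κU (M : Type) (e : ℕ) : UU M := MvPolynomial.X (Sum.inl e)

theorem infOrd_LU : InfOrd (LU M) := by
  intro k l hkl h
  have h1 : ∀ n : ℕ, (((LU M) ^ n : (UU M)ˣ) : UU M) =
      MvPolynomial.C ((LL ^ n : AAˣ) : AA) := by
    intro n
    rw [LU, ← map_pow]
    rfl
  rw [h1, h1, ← map_sub, map_eq_zero_iff _ (MvPolynomial.C_injective _ _)] at h
  exact LL_pow_ne hkl h

/-- the homomorphism to `M` -/
noncomputable def phiU : UU M →+* M := MvPolynomial.eval₂Hom (phi L) (Sum.elim κ id)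

theorem phiU_L : phiU L κ ((LU M : (UU M)ˣ) : UU M) = L := by
  have h : ((LU M : (UU M)ˣ) : UU M) = MvPolynomial.C ((LL : AAˣ) : AA) := rfl
  rw [h, phiU, MvPolynomial.coe_eval₂Hom, MvPolynomial.eval₂_C, phi_LL]

theorem phiU_κ (e : ℕ) : phiU L κ (κU M e) = κ e := by
  rw [κU, phiU, MvPolynomial.coe_eval₂Hom, MvPolynomial.eval₂_X, Sum.elim_inl]

theorem phiU_r (w : M) : phiU L κ (MvPolynomial.X (Sum.inr w)) = w := by
  rw [phiU, MvPolynomial.coe_eval₂Hom, MvPolynomial.eval₂_X, Sum.elim_inr, id]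

/-- the contribution of a point comes from the universal ring -/
theorem exists_univE {g : MP} {a0 n0 a1 n1 : ℕ} {Z : PowerSeries M}
    (hZ : EqLocal L κ g a0 n0 a1 n1 Z) :
    ∃ Z0 : PowerSeries (UU M), EqLocal (LU M) (κU M) g a0 n0 a1 n1 Z0 ∧
      PowerSeries.map (phiU L κ) Z0 = Z := by
  classical
  have hp := fun a0 n0 a1 n1 => map_pt (phiU L κ) (LU M) L (phiU_L L κ) (phiU_κ L κ) a0 n0 a1 n1
  induction hZ with
  | unit g a0 n0 a1 n1 hj => exact ⟨_, EqLocal.unit g a0 n0 a1 n1 hj, hp _ _ _ _⟩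
  | curveV g a0 n0 m hm h k hg h0 h1 hj =>
    exact ⟨_, EqLocal.curveV g a0 n0 m hm h k hg h0 h1 hj, hp _ _ _ _⟩
  | curveU g a1 n1 m hm h k hg h0 h1 hj =>
    exact ⟨_, EqLocal.curveU g a1 n1 m hm h k hg h0 h1 hj, hp _ _ _ _⟩
  | blowup g a0 n0 a1 n1 m hm gc gI hgc hgI S h0S hS w hw Zc ZI h0 hc hI ih0 ihc ihI =>
    obtain ⟨Y0, hY0, e0⟩ := ih0
    obtain ⟨YI, hYI, eI⟩ := ihI
    have hch : ∀ c : ℂ, ∃ Y : PowerSeries (UU M), (c ∈ S → c ≠ 0 →
        EqLocal (LU M) (κU M) (gc c) (a0 + a1 + m) (n0 + n1) 0 1 Y ∧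
          PowerSeries.map (phiU L κ) Y = Zc c) := by
      intro c
      by_cases hcS : c ∈ S ∧ c ≠ 0
      · obtain ⟨Y, hY, e⟩ := ihc c hcS.1 hcS.2
        exact ⟨Y, fun _ _ => ⟨hY, e⟩⟩
      · exact ⟨0, fun h1 h2 => absurd ⟨h1, h2⟩ hcS⟩
    choose Y hY using hch
    let Yc : ℂ → PowerSeries (UU M) := fun c => if c = 0 then Y0 else Y c
    have hYc : ∀ c ∈ S, PowerSeries.map (phiU L κ) (Yc c) = Zc c := by
      intro c hcS
      by_cases h : c = 0
      · simp only [Yc, if_pos h]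
        rw [h]
        exact e0
      · simp only [Yc, if_neg h]
        exact (hY c hcS h).2
    have hwU : ∃ w0 : UU M, IsCov (LU M) (κU M) (a0 + a1 + m) S
        (fun c => (if c = 0 then a1 else 0) + ord0 (gc c)) (a0 + ord1 gI) w0 ∧
        phiU L κ w0 = w := by
      set q : ℂ → ℕ := fun c => (if c = 0 then a1 else 0) + ord0 (gc c) with hq
      by_cases hle : {c ∈ S | q c ≠ 0}.card + (if a0 + ord1 gI = 0 then 0 else 1) ≤ 2
      · refine ⟨(((LU M : (UU M)ˣ) : UU M) + 1) * κU M ((a0 + a1 + m).gcd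
          ((a0 + ord1 gI).gcd (S.gcd q))) - κU M ((a0 + a1 + m).gcd (a0 + ord1 gI)) -
          ∑ c ∈ S, κU M ((a0 + a1 + m).gcd (q c)), fun _ => rfl, ?_⟩
        rw [map_sub, map_sub, map_mul, map_add, map_one, map_sum, phiU_L, phiU_κ, phiU_κ, hw hle]
        simp only [phiU_κ]
      · exact ⟨MvPolynomial.X (Sum.inr w), fun h => absurd h hle, phiU_r L κ w⟩
    obtain ⟨w0, hw0, hw1⟩ := hwU
    refine ⟨_, EqLocal.blowup g a0 n0 a1 n1 m hm gc gI hgc hgI S h0S hS w0 hw0 Yc YI ?_ ?_ hYI, ?_⟩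
    · simp only [Yc, if_pos]
      exact hY0
    · intro c hcS h
      simp only [Yc, if_neg h]
      exact (hY c hcS h).1
    · rw [map_add, map_add, map_sum, eI, Finset.sum_congr rfl hYc, map_mul, PowerSeries.map_C, hw1,
        map_gf (phiU L κ) (LU M) L (phiU_L L κ)]

theorem mem_allE {g : MP} {a0 n0 a1 n1 : ℕ} {Z : PowerSeries M}
    (hZ : EqLocal L κ g a0 n0 a1 n1 Z) (hn0 : 1 ≤ n0) (hn1 : 1 ≤ n1) :
    Z ∈ DenRing L (fun _ _ => True) := by
  classical
  induction hZ with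
  | unit g a0 n0 a1 n1 hj => exact pt_mem hn0 hn1 (fun _ => trivial) fun _ => trivial
  | curveV g a0 n0 m hm h k hg h0 h1 hj =>
    exact pt_mem hn0 le_rfl (fun _ => trivial) fun _ => trivial
  | curveU g a1 n1 m hm h k hg h0 h1 hj =>
    exact pt_mem hn1 le_rfl (fun _ => trivial) fun _ => trivial
  | blowup g a0 n0 a1 n1 m hm gc gI hgc hgI S h0S hS w hw Zc ZI h0 hc hI ih0 ihc ihI =>
    refine Subring.add_mem _ (Subring.add_mem _ (ihI hn0 (by omega)) ?_)
      (Subring.mul_mem _ (C_mem _) (gf_mem (by omega) fun _ => trivial))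
    refine Subring.sum_mem _ fun c hcS => ?_
    by_cases h : c = 0
    · rw [h]
      exact ih0 (by omega) hn1
    · exact ihc c hcS h (by omega) le_rfl

/-- **The denominators of the equivariant motivic contribution of the point `P`** belong to roots
of `b`, if `b` satisfies a functional equation near `P`. -/
theorem point_eq (f : MP) (b : Polynomial ℂ) (H : MP) (hb : IsLocEq H (fun _ : Unit => f) b)
    (P : Fin 2 → ℂ) (hH : MvPolynomial.eval P H ≠ 0) (Z : PowerSeries M)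
    (hZ : EqLocal L κ (translate P f) 0 1 0 1 Z) : Z ∈ DenRing L (Kb b) := by
  classical
  obtain ⟨Z0, hZ0, rfl⟩ := exists_univE L κ hZ
  apply map_mem (phiU L κ) (LU M) L (phiU_L L κ)
  obtain ⟨s, hs, Q, hQ⟩ := exists_denom (LU M) (mem_allE (LU M) (κU M) hZ0 le_rfl le_rfl)
  refine descent (LU M) infOrd_LU (Kb b) Z0 s (fun p hp => ⟨(hs p hp).1, (hs p hp).2.1⟩) ?_ Q hQ
  intro a n ha hn hne
  have hac : (a : ℂ) ≠ 0 := Nat.cast_ne_zero.2 (by omega)
  obtain ⟨c0, m0, c1, m1, _, _, h1⟩ := local_eq (LU M) (κU M) (fun _ : Unit => f) b H hb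
    (-(n : ℂ) / a) hne hZ0 (inv_initialL H (fun _ : Unit => f) P hH _)
  rw [gf_zero, mul_zero, sub_zero, mul_zero, sub_zero] at h1
  refine Subring.closure_mono (Set.union_subset_union_right _ ?_) h1
  rintro u ⟨a', n', ha', hn', hK, hu⟩
  refine ⟨a', n', ha', hn', ?_, hu⟩
  intro h3
  apply hK
  have h4 : (n : ℂ) * a' = n' * a := by exact_mod_cast h3
  field_simp
  linear_combination -h4

end Univ

end Pool.Agent.Helper748.EQ
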